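import Pool.Agent.PQP.StmtsN

/-!
# Squad PQP (MP_5f32e0_gt), row NRX: the near expansion

The integral of `(g - g w) f` over the small cap `cap w (1/t)` in terms of the Laplacian of `g` at the
centre `w` of the bubble.
-/

set_option autoImplicit false

open scoped InnerProductSpace Topology ContDiff Manifold
open MeasureTheory Filter Set

noncomputable section

namespace Pool.Agent.PQP.H33

open Pool.Agent.Helper42_Paneitz Pool.Agent.Helper82_Vir Pool.Agent.FLX Pool.Agent.PQP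

/-- `t exp (-ct)` is eventually small -/
theorem ev_small (c δ : ℝ) (hc : 0 < c) (hδ : 0 < δ) :
    ∃ T : ℝ, 1 ≤ T ∧ ∀ t, T ≤ t → t * Real.exp (-(c * t)) ≤ δ := by
  have h1 : Tendsto (fun t : ℝ => (c * t) ^ 1 * Real.exp (-(c * t))) atTop (𝓝 0) :=
    (Real.tendsto_pow_mul_exp_neg_atTop_nhds_zero 1).comp (tendsto_id.const_mul_atTop hc)
  have h2 : ∀ᶠ t : ℝ in atTop, (c * t) ^ 1 * Real.exp (-(c * t)) < c * δ :=
    h1.eventually (gt_mem_nhds (by positivity))
  obtain ⟨T, hT⟩ := eventually_atTop.1 h2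
  refine ⟨max T 1, le_max_right _ _, fun t ht => ?_⟩
  have h3 := hT t (le_trans (le_max_left _ _) ht)
  have h4 : c * (t * Real.exp (-(c * t))) < c * δ := by
    have : c * (t * Real.exp (-(c * t))) = (c * t) ^ 1 * Real.exp (-(c * t)) := by ring
    rw [this]; exact h3
  exact (lt_of_mul_lt_mul_left h4 hc.le).le

theorem norm_lam (w : S4) (lam : ℝ) (h0 : 0 ≤ lam) : ‖lam • (w : E5)‖ = lam := by
  rw [norm_smul, Real.norm_eq_abs, abs_of_nonneg h0, norm_eq_of_mem_sphere, mul_one]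

theorem sq_lam (w : S4) (lam : ℝ) (h0 : 0 ≤ lam) (h1 : lam < 1) :
    sq (lam • (w : E5)) ^ 2 = 1 - lam ^ 2 := by
  unfold FLX.sq
  rw [norm_lam w lam h0, Real.sq_sqrt (by nlinarith)]

/-- the position of `mob (λ w) x` relative to `w` -/
theorem mob_pos (hMOA : MoaStmt) (w x : S4) (lam : ℝ) (h0 : 0 < lam) (h1 : lam < 1) :
    1 - ⟪(w : E5), (mob (lam • (w : E5)) x : E5)⟫_ℝ =
      (1 - lam) * (1 - ⟪(w : E5), (x : E5)⟫_ℝ) / (1 + lam * ⟪(w : E5), (x : E5)⟫_ℝ) := by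
  have hb : ‖lam • (w : E5)‖ < 1 := by rw [norm_lam w lam h0.le]; exact h1
  obtain ⟨hpos, -, -, -, hid, -⟩ := hMOA (lam • (w : E5)) hb
  have h2 := hid x
  have h3 := hpos x
  rw [norm_lam w lam h0.le, real_inner_smul_left, real_inner_smul_left] at h2
  rw [real_inner_smul_left] at h3
  rw [eq_div_iff h3.ne']
  have h4 : lam * ((1 - ⟪(w : E5), (mob (lam • (w : E5)) x : E5)⟫_ℝ) *
      (1 + lam * ⟪(w : E5), (x : E5)⟫_ℝ)) =
      lam * ((1 - lam) * (1 - ⟪(w : E5), (x : E5)⟫_ℝ)) := by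
    linear_combination h2
  exact mul_left_cancel₀ h0.ne' h4

theorem inner_ge (w x : S4) : -1 ≤ ⟪(w : E5), (x : E5)⟫_ℝ := by
  have h := abs_real_inner_le_norm (w : E5) (x : E5)
  rw [norm_eq_of_mem_sphere, norm_eq_of_mem_sphere, mul_one] at h
  exact (abs_le.1 h).1

theorem cont_inner (w : S4) : Continuous (fun x : S4 => ⟪(w : E5), (x : E5)⟫_ℝ) :=
  continuous_const.inner continuous_subtype_val

theorem meas_cap (w : S4) (u : ℝ) : MeasurableSet (cap w u) :=
  measurableSet_le (measurable_const.sub (cont_inner w).measurable) measurable_const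

theorem meas_E (hMOA : MoaStmt) (w : S4) (lam u : ℝ) (h0 : 0 < lam) (h1 : lam < 1) :
    MeasurableSet {x : S4 | 1 - ⟪(w : E5), (mob (lam • (w : E5)) x : E5)⟫_ℝ ≤ u} := by
  have h2 : {x : S4 | 1 - ⟪(w : E5), (mob (lam • (w : E5)) x : E5)⟫_ℝ ≤ u} =
      {x : S4 | (1 - lam) * (1 - ⟪(w : E5), (x : E5)⟫_ℝ) / (1 + lam * ⟪(w : E5), (x : E5)⟫_ℝ) ≤ u} := by
    ext x
    simp only [Set.mem_ofPred_eq]
    rw [mob_pos hMOA w x lam h0 h1]
  rw [h2]
  have hm := (cont_inner w).measurable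
  exact measurableSet_le (((hm.const_sub 1).const_mul (1 - lam)).div ((hm.const_mul lam).const_add 1))
    measurable_const

/-- NRX: the near expansion -/
theorem nrx (hL4N : L4nStmt) (hCMW : CmwStmt) (hMTG : MtgStmt) (hCOV : CovStmt) (hWTL : WtlStmt)
    (hMOA : MoaStmt) : NrxStmt := by
  obtain ⟨c4, hc4, hM⟩ := hMTG
  refine ⟨c4, hc4, ?_⟩
  intro ψ hψ N ε₁ c B ε hε₁ hc hB hε
  obtain ⟨C1, T1, hC1, hT1, hL4⟩ := hL4N ψ hψ N ε₁ c hε₁ hc
  obtain ⟨η, hη0, hη1, hM1⟩ := hM C1 B ε hC1 hB hε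
  obtain ⟨θ, hθ, hC⟩ := hCMW η hη0
  obtain ⟨-, -, L, hL0, hLG, -, -⟩ := hWTL ψ hψ
  obtain ⟨T2, hT2, hev⟩ := ev_small c (min (θ / L) (η / 4)) hc (by positivity)
  refine ⟨max T1 T2, lt_of_lt_of_le hT1 (le_max_left _ _), ?_⟩
  intro t f w lam ht hbub g G hg hT3 hG
  have htT1 : T1 ≤ t := le_trans (le_max_left _ _) ht
  have htT2 : T2 ≤ t := le_trans (le_max_right _ _) ht
  have ht1 : 1 ≤ t := le_trans hT2 htT2
  have ht0 : 0 < t := by linarith
  have hsm := hev t htT2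
  obtain ⟨hsol, hlam0, hlam1, hbal, hsq, hNw, hmas⟩ := id hbub
  have hL4t := hL4 t f w lam htT1 hbub
  have hκ0 : 0 ≤ sq (lam • (w : E5)) := Real.sqrt_nonneg _
  have hκ2 := sq_lam w lam hlam0 hlam1
  have hκ1 : sq (lam • (w : E5)) ≤ 1 := by nlinarith
  have hb : ‖lam • (w : E5)‖ < 1 := by rw [norm_lam w lam hlam0]; exact hlam1
  have hκt : sq (lam • (w : E5)) * t ≤ min (θ / L) (η / 4) := by
    calc sq (lam • (w : E5)) * t ≤ Real.exp (-(c * t)) * t :=
          mul_le_mul_of_nonneg_right hsq ht0.le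
      _ = t * Real.exp (-(c * t)) := mul_comm _ _
      _ ≤ _ := hsm
  have hκtη : sq (lam • (w : E5)) * t ≤ η / 4 := le_trans hκt (min_le_right _ _)
  have hκtθ : sq (lam • (w : E5)) * (t * L) ≤ θ := by
    have h1 : sq (lam • (w : E5)) * t ≤ θ / L := le_trans hκt (min_le_left _ _)
    rw [le_div_iff₀ hL0] at h1
    linarith [h1, mul_assoc (sq (lam • (w : E5))) t L]
  have hκη : sq (lam • (w : E5)) ≤ η / 4 := by nlinarith
  have hκκ : sq (lam • (w : E5)) ^ 2 ≤ sq (lam • (w : E5)) := by nlinarith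
  have hκκt : sq (lam • (w : E5)) ^ 2 * t ≤ η / 4 := by
    calc sq (lam • (w : E5)) ^ 2 * t ≤ sq (lam • (w : E5)) * t :=
          mul_le_mul_of_nonneg_right hκκ ht0.le
      _ ≤ _ := hκtη
  have h1lam : 1 - lam ≤ sq (lam • (w : E5)) ^ 2 := by rw [hκ2]; nlinarith
  have hlamη : 1 - η / 4 ≤ lam := by linarith
  have hlampos : 0 < lam := by linarith
  -- the set `E`
  have hsub : ∀ x : S4, η ≤ 1 + ⟪(w : E5), (x : E5)⟫_ℝ →
      x ∈ {x : S4 | 1 - ⟪(w : E5), (mob (lam • (w : E5)) x : E5)⟫_ℝ ≤ 1 / t} := by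
    intro x hx
    have hden : η / 2 ≤ 1 + lam * ⟪(w : E5), (x : E5)⟫_ℝ := by nlinarith
    have hden0 : 0 < 1 + lam * ⟪(w : E5), (x : E5)⟫_ℝ := by linarith
    rw [Set.mem_ofPred_eq, mob_pos hMOA w x lam hlampos hlam1, div_le_div_iff₀ hden0 ht0, one_mul]
    have hs := inner_ge w x
    have h5 : (1 - lam) * (1 - ⟪(w : E5), (x : E5)⟫_ℝ) ≤ sq (lam • (w : E5)) ^ 2 * 2 :=
      mul_le_mul h1lam (by linarith) (by
        have h := abs_real_inner_le_norm (w : E5) (x : E5)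
        rw [norm_eq_of_mem_sphere, norm_eq_of_mem_sphere, mul_one] at h
        linarith [(abs_le.1 h).2]) (sq_nonneg _)
    calc (1 - lam) * (1 - ⟪(w : E5), (x : E5)⟫_ℝ) * t ≤ sq (lam • (w : E5)) ^ 2 * 2 * t :=
          mul_le_mul_of_nonneg_right h5 ht0.le
      _ = 2 * (sq (lam • (w : E5)) ^ 2 * t) := by ring
      _ ≤ 2 * (η / 4) := by linarith
      _ ≤ 1 + lam * ⟪(w : E5), (x : E5)⟫_ℝ := by linarith
  have hE := meas_E hMOA w lam (1 / t) hlampos hlam1
  obtain ⟨hcD, -, hcI, -⟩ := hCOV (lam • (w : E5)) hb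
  have hDh : Dens (pull (lam • (w : E5)) f) := hcD f hsol.1
  have hL1 : ∫ x, |pull (lam • (w : E5)) f x - 1 / msig| ∂sig ≤ η :=
    hC (Wt ψ t) (t * L) f (lam • (w : E5)) (hLG t ht0.le) hsol hb hbal hκtθ
  have hmain := hM1 w lam (pull (lam • (w : E5)) f)
    {x : S4 | 1 - ⟪(w : E5), (mob (lam • (w : E5)) x : E5)⟫_ℝ ≤ 1 / t} g G (by linarith) hlam1 hDh hL1
    hE hsub hL4t hg hT3 hG
  have hchange : ∫ x in {x : S4 | 1 - ⟪(w : E5), (mob (lam • (w : E5)) x : E5)⟫_ℝ ≤ 1 / t},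
      pull (lam • (w : E5)) f x * (g (mob (lam • (w : E5)) x) - g w) ∂sig =
      ∫ x in cap w (1 / t), (g x - g w) * f x ∂sig := by
    have h1 := hcI f (fun x => (cap w (1 / t)).indicator (fun y => g y - g w) x)
    rw [← integral_indicator hE, ← integral_indicator (meas_cap w (1 / t))]
    calc ∫ x, indicator {x : S4 | 1 - ⟪(w : E5), (mob (lam • (w : E5)) x : E5)⟫_ℝ ≤ 1 / t}
          (fun x => pull (lam • (w : E5)) f x * (g (mob (lam • (w : E5)) x) - g w)) x ∂sig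
        = ∫ x, (cap w (1 / t)).indicator (fun y => g y - g w) (mob (lam • (w : E5)) x) *
            pull (lam • (w : E5)) f x ∂sig := by
          refine integral_congr_ae (Eventually.of_forall fun x => ?_)
          by_cases hx : 1 - ⟪(w : E5), (mob (lam • (w : E5)) x : E5)⟫_ℝ ≤ 1 / t
          · have hx' : mob (lam • (w : E5)) x ∈ cap w (1 / t) := hx
            have hx'' : x ∈ {x : S4 | 1 - ⟪(w : E5), (mob (lam • (w : E5)) x : E5)⟫_ℝ ≤ 1 / t} := hx
            simp only [indicator_of_mem hx', indicator_of_mem hx'']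
            ring
          · have hx' : mob (lam • (w : E5)) x ∉ cap w (1 / t) := hx
            have hx'' : x ∉ {x : S4 | 1 - ⟪(w : E5), (mob (lam • (w : E5)) x : E5)⟫_ℝ ≤ 1 / t} := hx
            simp only [indicator_of_notMem hx', indicator_of_notMem hx'']
            ring
      _ = ∫ x, (cap w (1 / t)).indicator (fun y => g y - g w) x * f x ∂sig := h1
      _ = _ := by
          refine integral_congr_ae (Eventually.of_forall fun x => ?_)
          by_cases hx : x ∈ cap w (1 / t)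
          · simp only [indicator_of_mem hx]
          · simp only [indicator_of_notMem hx]
            ring
  rw [← hchange]
  exact hmain

end Pool.Agent.PQP.H33
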